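import Mathlib
import Pool.Agent.Q296.RadoSystems

namespace Pool.Agent.Results.MP_9bc523_co.NoSupersaturation

open Pool.Agent.Q296.Rado

/-- The matrix of `x - 2 y`. -/
def mat : Matrix (Fin 1) (Fin 2) ℤ := !![1, -2]

lemma sys_sol (c : ℤ) (x : Fin 2 → ℕ) : IsSol mat (fun _ => c) x ↔
    1 ≤ x 0 ∧ 1 ≤ x 1 ∧ x 0 ≠ x 1 ∧ (x 0 : ℤ) = 2 * x 1 + c := by
  have hmul : mat.mulVec (fun j => (x j : ℤ)) 0 = x 0 - 2 * x 1 := by
    simp [mat, Matrix.mulVec, dotProduct, Fin.sum_univ_two]
    ring
  constructor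
  · rintro ⟨h1, h2, h3⟩
    refine ⟨h1 0, h1 1, fun h => by simpa using h2 h, ?_⟩
    have := congrFun h3 0
    rw [hmul] at this
    linarith
  · rintro ⟨h1, h2, h3, h4⟩
    refine ⟨?_, ?_, ?_⟩
    · intro j
      fin_cases j
      · exact h1
      · exact h2
    · intro a b hab
      fin_cases a <;> fin_cases b <;> simp_all
    · funext j
      fin_cases j
      show mat.mulVec (fun j => (x j : ℤ)) 0 = c
      rw [hmul]
      linarith

lemma sys_fullRank : FullRank mat := by
  unfold FullRank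
  have h : LinearIndependent ℚ (mat.map (Int.cast : ℤ → ℚ)).row := by
    rw [linearIndependent_unique_iff]
    intro h
    have := congrFun h 0
    simp [mat] at this
  simpa using h.rank_matrix

/-- the two right hand sides -/
def rhs (i : Fin 2) : Fin 1 → ℤ := fun _ => 2 * (i : ℕ)

lemma rhs_zero : rhs 0 = fun _ => 0 := by funext; simp [rhs]

lemma rhs_one : rhs 1 = fun _ => 2 := by funext; simp [rhs]

lemma rado : IsRado (r := 2) (l := fun _ => 1) (k := fun _ => 2) (fun _ => mat) rhs := by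
  intro col
  by_contra hcon
  push Not at hcon
  -- colour 0: no solution of x = 2 y ; colour 1: no solution of x = 2 y + 2
  have h0 : ∀ y, 1 ≤ y → col y = 0 → col (2 * y) = 1 := by
    intro y hy hc
    obtain ⟨j, hj⟩ := hcon 0 ![2 * y, y] (by
      rw [rhs_zero, sys_sol]
      simp
      omega)
    fin_cases j
    · simp at hj
      omega
    · simp at hj
      omega
  have h1 : ∀ y, 1 ≤ y → col y = 1 → col (2 * y + 2) = 0 := by
    intro y hy hc
    obtain ⟨j, hj⟩ := hcon 1 ![2 * y + 2, y] (by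
      rw [rhs_one, sys_sol]
      simp
      omega)
    fin_cases j
    · simp at hj
      omega
    · simp at hj
      omega
  have a1 := h0 1; have a2 := h0 2; have a3 := h0 3; have a4 := h0 4; have a5 := h0 5
  have a6 := h0 6
  have b1 := h1 1; have b2 := h1 2; have b3 := h1 3; have b4 := h1 4; have b5 := h1 5
  norm_num at a1 a2 a3 a4 a5 a6 b1 b2 b3 b4 b5
  omega

/-- the colouring by the parity of the binary length -/
def col (n : ℕ) : Fin 2 := if Nat.log 2 n % 2 = 0 then 0 else 1

lemma col_two_mul (y : ℕ) (hy : 1 ≤ y) : col (2 * y) ≠ col y := by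
  unfold col
  rw [mul_comm, Nat.log_mul_base (by norm_num) (by omega)]
  split_ifs with h1 h2 h2
  · omega
  · simp
  · simp
  · omega

lemma num_le (n : ℕ) (i : Fin 2) : numSol mat (rhs i) n col i ≤ Nat.log 2 n + 1 := by
  unfold numSol
  fin_cases i
  · simp only [Fin.zero_eta, Fin.isValue]
    have : {x : Fin 2 → ℕ | IsSol mat (rhs 0) x ∧ (∀ j, x j ≤ n) ∧ ∀ j, col (x j) = 0} = ∅ := by
      ext x
      simp only [Set.mem_ofPred_eq, Set.mem_empty_iff_false, iff_false]
      rintro ⟨h1, -, h3⟩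
      rw [rhs_zero, sys_sol] at h1
      obtain ⟨_, hy, _, he⟩ := h1
      have he' : x 0 = 2 * x 1 := by omega
      have h4 := h3 0
      have h5 := h3 1
      rw [he'] at h4
      exact col_two_mul (x 1) hy (h4.trans h5.symm)
    rw [this]
    simp
  · simp only [Fin.mk_one, Fin.isValue]
    have hsub : {x : Fin 2 → ℕ | IsSol mat (rhs 1) x ∧ (∀ j, x j ≤ n) ∧ ∀ j, col (x j) = 1} ⊆
        ((Finset.range (Nat.log 2 n + 1)).image
          (fun t => (![2 ^ (t + 1), 2 ^ t - 1] : Fin 2 → ℕ)) : Finset (Fin 2 → ℕ)) := by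
      rintro x ⟨h1, h2, h3⟩
      rw [rhs_one, sys_sol] at h1
      obtain ⟨_, hy, _, he⟩ := h1
      have he' : x 0 = 2 * (x 1 + 1) := by omega
      have h4 := h3 0
      have h5 := h3 1
      have h6 := h2 0
      set y := x 1 with hydef
      -- log (y+1) ≠ log y
      have hlog : Nat.log 2 (y + 1) ≠ Nat.log 2 y := by
        intro h
        have hc : col (y + 1) = col y := by unfold col; rw [h]
        rw [he'] at h4
        exact col_two_mul (y + 1) (by omega) (by rw [h4, hc, h5])
      have hle : Nat.log 2 y ≤ Nat.log 2 (y + 1) := Nat.log_mono_right (by omega)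
      set t := Nat.log 2 (y + 1) with ht
      have hlt : Nat.log 2 y < t := by omega
      have hy1 : y < 2 ^ t := Nat.lt_pow_of_log_lt (by norm_num) hlt
      have hy2 : 2 ^ t ≤ y + 1 := Nat.pow_log_le_self 2 (by omega)
      have hy3 : y = 2 ^ t - 1 := by omega
      simp only [Finset.coe_image, Finset.coe_range, Set.mem_image, Set.mem_Iio]
      refine ⟨t, ?_, ?_⟩
      · have : Nat.log 2 (y + 1) ≤ Nat.log 2 n := Nat.log_mono_right (by omega)
        omega
      · funext j
        fin_cases j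
        · show 2 ^ (t + 1) = x 0
          rw [he', pow_succ]
          omega
        · show 2 ^ t - 1 = x 1
          omega
    calc _ ≤ (((Finset.range (Nat.log 2 n + 1)).image
          (fun t => (![2 ^ (t + 1), 2 ^ t - 1] : Fin 2 → ℕ)) : Finset (Fin 2 → ℕ)) :
            Set (Fin 2 → ℕ)).ncard := Set.ncard_le_ncard hsub (Finset.finite_toSet _)
      _ ≤ Nat.log 2 n + 1 := by
          rw [Set.ncard_coe_finset]
          simpa using Finset.card_image_le (s := Finset.range (Nat.log 2 n + 1))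
            (f := fun t => (![2 ^ (t + 1), 2 ^ t - 1] : Fin 2 → ℕ))

lemma tendsto_log : Filter.Tendsto (fun n : ℕ => ((Nat.log 2 n : ℝ) + 1) / n) Filter.atTop
    (nhds 0) := by
  have h1 : Filter.Tendsto (fun n : ℕ => (Real.log n / n) / Real.log 2 + 1 / (n : ℝ))
      Filter.atTop (nhds (0 / Real.log 2 + 0)) := by
    apply Filter.Tendsto.add
    · apply Filter.Tendsto.div_const
      have := Real.isLittleO_log_id_atTop.tendsto_div_nhds_zero.comp
        (tendsto_natCast_atTop_atTop (R := ℝ))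
      exact this
    · exact tendsto_one_div_atTop_nhds_zero_nat
  simp only [zero_div, add_zero] at h1
  refine squeeze_zero (fun n => by positivity) (fun n => ?_) h1
  have h2 : (Nat.log 2 n : ℝ) ≤ Real.log n / Real.log 2 := by
    have := Real.natLog_le_logb n 2
    rw [Real.logb] at this
    exact_mod_cast this
  calc ((Nat.log 2 n : ℝ) + 1) / n ≤ (Real.log n / Real.log 2 + 1) / n := by gcongr
    _ = _ := by ring

/-- There are systems `A_1, ..., A_r` satisfying all hypotheses of the problem (integer matrices of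
full rank, all `A_i` and `A'_i` irredundant, `ℕ` is `(A_1,...,A_r)`-Rado) such that for every
`c > 0` and every `n₀` there are `n > n₀` and an `r`-colouring for which, for every colour `i`,
fewer than `c n^{k_i - l_i}` distinct solutions to `A_i` in `[n]` have colour `i`. -/
theorem result : ∃ (r : ℕ) (l k : Fin r → ℕ) (M : ∀ i, Matrix (Fin (l i)) (Fin (k i)) ℤ)
    (b : ∀ i, Fin (l i) → ℤ),
    0 < r ∧ (∀ i, FullRank (M i)) ∧ (∀ i, Irredundant (M i) (b i)) ∧
    (∀ i, Irredundant (M i) 0) ∧ IsRado M b ∧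
    ∀ c : ℝ, 0 < c → ∀ n₀ : ℕ, ∃ n > n₀, ∃ col : ℕ → Fin r, ∀ i,
      (numSol (M i) (b i) n col i : ℝ) < c * (n : ℝ) ^ (k i - l i) := by
  refine ⟨2, fun _ => 1, fun _ => 2, fun _ => mat, rhs, by norm_num, fun _ => sys_fullRank,
    ?_, ?_, rado, ?_⟩
  · intro i
    refine ⟨![2 + 2 * (i : ℕ), 1], ?_⟩
    show IsSol mat (fun _ => 2 * ((i : ℕ) : ℤ)) _
    rw [sys_sol]
    simp
    omega
  · intro i
    refine ⟨![2, 1], ?_⟩
    show IsSol mat (fun _ => 0) _
    rw [sys_sol]
    simp
  · intro c hc n₀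
    have h1 : ∀ᶠ n : ℕ in Filter.atTop, ((Nat.log 2 n : ℝ) + 1) / n < c :=
      tendsto_log.eventually_lt_const hc
    obtain ⟨n, hn, hn0⟩ := (h1.and (Filter.eventually_gt_atTop n₀)).exists
    refine ⟨n, hn0, col, fun i => ?_⟩
    have hnpos : (0 : ℝ) < n := by
      have : 0 < n := by omega
      exact_mod_cast this
    rw [div_lt_iff₀ hnpos] at hn
    have h2 : (numSol mat (rhs i) n col i : ℝ) ≤ (Nat.log 2 n : ℝ) + 1 := by
      exact_mod_cast num_le n i
    calc (numSol mat (rhs i) n col i : ℝ) ≤ (Nat.log 2 n : ℝ) + 1 := h2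
      _ < c * n := hn
      _ = c * (n : ℝ) ^ (2 - 1) := by norm_num

end Pool.Agent.Results.MP_9bc523_co.NoSupersaturation
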